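import Mathlib

set_option autoImplicit false

namespace Pool.Agent.Helper34.E243

open Finset

variable {α : Type*} [DecidableEq α]

/-- Trace of a set family on a set. -/
def tr (𝒜 : Finset (Finset α)) (W : Finset α) : Finset (Finset α) := 𝒜.image (fun A => A ∩ W)

lemma mem_tr {𝒜 : Finset (Finset α)} {W B : Finset α} :
    B ∈ tr 𝒜 W ↔ ∃ A ∈ 𝒜, A ∩ W = B := by simp [tr]

lemma tr_nonempty {𝒜 : Finset (Finset α)} (h : 𝒜.Nonempty) (W : Finset α) :
    (tr 𝒜 W).Nonempty := h.image _

lemma tr_subset_powerset (𝒜 : Finset (Finset α)) (W : Finset α) :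
    tr 𝒜 W ⊆ W.powerset := by
  intro B hB
  obtain ⟨A, _, rfl⟩ := mem_tr.1 hB
  exact mem_powerset.2 inter_subset_right

lemma card_tr_mem {𝒜 : Finset (Finset α)} {e : α} {W : Finset α} (he : e ∈ W) :
    (tr (𝒜.memberSubfamily e) W).card + (tr (𝒜.nonMemberSubfamily e) W).card = (tr 𝒜 W).card := by
  rw [← card_memberSubfamily_add_card_nonMemberSubfamily e (tr 𝒜 W)]
  congr 2
  · ext B
    simp only [mem_tr, mem_memberSubfamily]
    constructor
    · rintro ⟨A, ⟨hA, heA⟩, rfl⟩
      refine ⟨⟨insert e A, hA, ?_⟩, fun h => heA (mem_inter.1 h).1⟩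
      rw [insert_inter_of_mem he]
    · rintro ⟨⟨A, hA, hAB⟩, heB⟩
      have heA : e ∈ A := by
        have : e ∈ A ∩ W := by rw [hAB]; exact mem_insert_self _ _
        exact (mem_inter.1 this).1
      refine ⟨A.erase e, ⟨?_, notMem_erase _ _⟩, ?_⟩
      · rwa [insert_erase heA]
      · rw [erase_inter, hAB, erase_insert heB]
  · ext B
    simp only [mem_tr, mem_nonMemberSubfamily]
    constructor
    · rintro ⟨A, ⟨hA, heA⟩, rfl⟩
      exact ⟨⟨A, hA, rfl⟩, fun h => heA (mem_inter.1 h).1⟩
    · rintro ⟨⟨A, hA, rfl⟩, heB⟩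
      exact ⟨A, ⟨hA, fun h => heB (mem_inter.2 ⟨h, he⟩)⟩, rfl⟩

lemma card_tr_member_le {𝒜 : Finset (Finset α)} {e : α} {W : Finset α} (he : e ∉ W) :
    (tr (𝒜.memberSubfamily e) W).card ≤ (tr 𝒜 W).card := by
  apply card_le_card
  intro B hB
  obtain ⟨A, hA, rfl⟩ := mem_tr.1 hB
  refine mem_tr.2 ⟨insert e A, (mem_memberSubfamily.1 hA).1, ?_⟩
  rw [insert_inter_of_notMem he]

lemma card_tr_nonMember_le {𝒜 : Finset (Finset α)} {e : α} {W : Finset α} :
    (tr (𝒜.nonMemberSubfamily e) W).card ≤ (tr 𝒜 W).card := by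
  apply card_le_card
  intro B hB
  obtain ⟨A, hA, rfl⟩ := mem_tr.1 hB
  exact mem_tr.2 ⟨A, (mem_nonMemberSubfamily.1 hA).1, rfl⟩

/-- The numerical step in the proof of the projection inequality. -/
lemma num_step {ι : Type*} (C : Finset ι) (P : ι → Prop) [DecidablePred P] (k : ℕ)
    (hk : k ≤ (C.filter P).card) (T u v : ι → ℝ) (a b : ℝ) (ha : 0 < a) (hb : 0 < b)
    (hu : ∀ c ∈ C, 0 < u c) (hv : ∀ c ∈ C, 0 < v c)
    (hT1 : ∀ c ∈ C, P c → T c = u c + v c)
    (hT2 : ∀ c ∈ C, ¬ P c → u c ≤ T c ∧ v c ≤ T c)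
    (hau : a ^ k ≤ ∏ c ∈ C, u c) (hbv : b ^ k ≤ ∏ c ∈ C, v c) :
    (a + b) ^ k ≤ ∏ c ∈ C, T c := by
  set p : ℝ := a / (a + b) with hp
  set q : ℝ := b / (a + b) with hq
  have hab : 0 < a + b := by positivity
  have hp0 : 0 < p := by positivity
  have hq0 : 0 < q := by positivity
  have hpq : p + q = 1 := by rw [hp, hq]; field_simp
  have hp1 : p ≤ 1 := by linarith
  have hq1 : q ≤ 1 := by linarith
  set D : ℝ := (1 / p) ^ p * (1 / q) ^ q with hD
  have hD1 : 1 ≤ D := by
    have h1 : (1 : ℝ) ≤ (1 / p) ^ p := Real.one_le_rpow (by rw [le_div_iff₀ hp0]; linarith) hp0.le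
    have h2 : (1 : ℝ) ≤ (1 / q) ^ q := Real.one_le_rpow (by rw [le_div_iff₀ hq0]; linarith) hq0.le
    nlinarith
  have key : ∀ c ∈ C, u c ^ p * v c ^ q * (if P c then D else 1) ≤ T c := by
    intro c hc
    have huc := hu c hc
    have hvc := hv c hc
    by_cases hP : P c
    · rw [if_pos hP, hT1 c hc hP]
      have := Real.geom_mean_le_arith_mean2_weighted hp0.le hq0.le
        (p₁ := u c * (1 / p)) (p₂ := v c * (1 / q)) (by positivity) (by positivity) hpq
      rw [Real.mul_rpow huc.le (by positivity), Real.mul_rpow hvc.le (by positivity)] at this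
      calc u c ^ p * v c ^ q * D = u c ^ p * (1 / p) ^ p * (v c ^ q * (1 / q) ^ q) := by
            rw [hD]; ring
        _ ≤ p * (u c * (1 / p)) + q * (v c * (1 / q)) := this
        _ = u c + v c := by field_simp
    · rw [if_neg hP, mul_one]
      obtain ⟨h1, h2⟩ := hT2 c hc hP
      have hTc : 0 ≤ T c := huc.le.trans h1
      calc u c ^ p * v c ^ q ≤ T c ^ p * T c ^ q := by
            gcongr
        _ = T c := by
            rw [← Real.rpow_add_of_nonneg hTc hp0.le hq0.le, hpq, Real.rpow_one]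
  have hprod : ∏ c ∈ C, (u c ^ p * v c ^ q * (if P c then D else 1)) ≤ ∏ c ∈ C, T c := by
    apply Finset.prod_le_prod
    · intro c hc
      have huc := hu c hc
      have hvc := hv c hc
      have : 0 ≤ (if P c then D else 1) := by split_ifs <;> linarith
      positivity
    · exact key
  refine le_trans ?_ hprod
  rw [Finset.prod_mul_distrib, Finset.prod_mul_distrib, Real.finsetProd_rpow _ _ (fun c hc => (hu c hc).le),
    Real.finsetProd_rpow _ _ (fun c hc => (hv c hc).le), Finset.prod_ite, Finset.prod_const,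
    Finset.prod_const_one, mul_one]
  have e1 : (a + b) ^ k = (a ^ k) ^ p * (b ^ k) ^ q * D ^ k := by
    have hx : a + b = a ^ p * b ^ q * D := by
      have h1 : a ^ p * b ^ q * D = (a * (1 / p)) ^ p * (b * (1 / q)) ^ q := by
        rw [Real.mul_rpow ha.le (by positivity), Real.mul_rpow hb.le (by positivity), hD]; ring
      rw [h1]
      have h2 : a * (1 / p) = a + b := by rw [hp]; field_simp
      have h3 : b * (1 / q) = a + b := by rw [hq]; field_simp
      rw [h2, h3, ← Real.rpow_add hab, hpq, Real.rpow_one]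
    have h4 : (a ^ k) ^ p = (a ^ p) ^ k := by
      rw [← Real.rpow_natCast, ← Real.rpow_natCast, ← Real.rpow_mul ha.le, ← Real.rpow_mul ha.le,
        mul_comm]
    have h5 : (b ^ k) ^ q = (b ^ q) ^ k := by
      rw [← Real.rpow_natCast, ← Real.rpow_natCast, ← Real.rpow_mul hb.le, ← Real.rpow_mul hb.le,
        mul_comm]
    rw [h4, h5, ← mul_pow, ← mul_pow, ← hx]
  rw [e1]
  have hak : 0 ≤ a ^ k := by positivity
  have hbk : 0 ≤ b ^ k := by positivity
  have hU : 0 ≤ ∏ c ∈ C, u c := Finset.prod_nonneg (fun c hc => (hu c hc).le)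
  have hV : 0 ≤ ∏ c ∈ C, v c := Finset.prod_nonneg (fun c hc => (hv c hc).le)
  gcongr

/-- Product form of the projection inequality of Chung, Frankl, Graham and Shearer. -/
theorem shearer {ι : Type*} (C : Finset ι) (W : ι → Finset α) (k : ℕ) (S : Finset α)
    (hk : ∀ e ∈ S, k ≤ (C.filter (fun c => e ∈ W c)).card) :
    ∀ 𝒜 : Finset (Finset α), 𝒜.Nonempty → (∀ A ∈ 𝒜, A ⊆ S) →
      (𝒜.card : ℝ) ^ k ≤ ∏ c ∈ C, ((tr 𝒜 (W c)).card : ℝ) := by
  classical
  induction S using Finset.induction_on with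
  | empty =>
    intro 𝒜 hne hsub
    have h1 : 𝒜.card ≤ 1 := by
      apply card_le_one.2
      intro A hA B hB
      rw [subset_empty.1 (hsub A hA), subset_empty.1 (hsub B hB)]
    have h2 : (𝒜.card : ℝ) ^ k ≤ 1 := pow_le_one₀ (by positivity) (by exact_mod_cast h1)
    refine h2.trans ?_
    calc (1 : ℝ) = ∏ c ∈ C, (1 : ℝ) := by simp
      _ ≤ _ := by
        apply Finset.prod_le_prod
        · intro c _; norm_num
        · intro c _; exact_mod_cast (tr_nonempty hne (W c)).card_pos
  | insert e S he ih =>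
    intro 𝒜 hne hsub
    have ih' := ih (fun x hx => hk x (mem_insert_of_mem hx))
    have hcard := card_memberSubfamily_add_card_nonMemberSubfamily e 𝒜
    have hsub1 : ∀ A ∈ 𝒜.memberSubfamily e, A ⊆ S := by
      intro A hA x hx
      obtain ⟨hA1, hA2⟩ := mem_memberSubfamily.1 hA
      have := hsub _ hA1 (mem_insert_of_mem hx)
      rcases mem_insert.1 this with rfl | h
      · exact absurd hx hA2
      · exact h
    have hsub0 : ∀ A ∈ 𝒜.nonMemberSubfamily e, A ⊆ S := by
      intro A hA x hx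
      obtain ⟨hA1, hA2⟩ := mem_nonMemberSubfamily.1 hA
      rcases mem_insert.1 (hsub _ hA1 hx) with rfl | h
      · exact absurd hx hA2
      · exact h
    have hTmem : ∀ c, e ∈ W c → ((tr 𝒜 (W c)).card : ℝ) =
        ((tr (𝒜.memberSubfamily e) (W c)).card : ℝ) + ((tr (𝒜.nonMemberSubfamily e) (W c)).card : ℝ) := by
      intro c hc
      have := card_tr_mem (𝒜 := 𝒜) hc
      rw [← this]; push_cast; ring
    rcases (𝒜.memberSubfamily e).eq_empty_or_nonempty with h1 | h1
    · -- no member contains e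
      rw [h1, card_empty, zero_add] at hcard
      have hne0 : (𝒜.nonMemberSubfamily e).Nonempty := by
        rw [← card_pos, hcard]; exact hne.card_pos
      rw [← hcard]
      refine (ih' _ hne0 hsub0).trans ?_
      apply Finset.prod_le_prod
      · intro c _; positivity
      · intro c _; exact_mod_cast card_tr_nonMember_le
    · rcases (𝒜.nonMemberSubfamily e).eq_empty_or_nonempty with h0 | h0
      · rw [h0, card_empty, add_zero] at hcard
        rw [← hcard]
        refine (ih' _ h1 hsub1).trans ?_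
        apply Finset.prod_le_prod
        · intro c _; positivity
        · intro c _
          by_cases hc : e ∈ W c
          · rw [hTmem c hc]
            have : (0 : ℝ) ≤ ((tr (𝒜.nonMemberSubfamily e) (W c)).card : ℝ) := by positivity
            linarith
          · exact_mod_cast card_tr_member_le hc
      · have hc' : (𝒜.card : ℝ) = ((𝒜.memberSubfamily e).card : ℝ) + ((𝒜.nonMemberSubfamily e).card : ℝ) := by
          rw [← hcard]; push_cast; ring
        rw [hc']
        apply num_step C (fun c => e ∈ W c) k (hk e (mem_insert_self _ _))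
          (fun c => ((tr 𝒜 (W c)).card : ℝ))
          (fun c => ((tr (𝒜.memberSubfamily e) (W c)).card : ℝ))
          (fun c => ((tr (𝒜.nonMemberSubfamily e) (W c)).card : ℝ))
        · exact_mod_cast h1.card_pos
        · exact_mod_cast h0.card_pos
        · intro c _; exact_mod_cast (tr_nonempty h1 _).card_pos
        · intro c _; exact_mod_cast (tr_nonempty h0 _).card_pos
        · intro c _ hc; exact hTmem c hc
        · intro c _ hc
          exact ⟨by exact_mod_cast card_tr_member_le hc, by exact_mod_cast card_tr_nonMember_le⟩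
        · exact ih' _ h1 hsub1
        · exact ih' _ h0 hsub0

end Pool.Agent.Helper34.E243
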