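import Mathlib
import Pool.Agent.Helper34.E243.Shearer

set_option autoImplicit false

namespace Pool.Agent.Helper34.E243

open Finset

variable {V : Type*} [Fintype V] [DecidableEq V]

/-- The edges of `S` that are monochromatic under the vertex colouring `c`. -/
noncomputable def mono {κ : Type*} (S : Finset (Sym2 V)) (c : V → κ) : Finset (Sym2 V) :=
  by classical exact S.filter (fun e => (e.map c).IsDiag)

lemma mem_mono {κ : Type*} {S : Finset (Sym2 V)} {c : V → κ} {e : Sym2 V} :
    e ∈ mono S c ↔ e ∈ S ∧ (e.map c).IsDiag := by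
  simp [mono]

/-- Splitting off the colour of one vertex. -/
def colEquiv {m : ℕ} (u v : V) (huv : u ≠ v) :
    (V → Fin m) ≃ {c : V → Fin m // c u = c v} × Fin m where
  toFun c := (⟨Function.update c v (c u), by simp [Function.update_of_ne huv]⟩, c v)
  invFun p := Function.update p.1.1 v p.2
  left_inv c := by simp
  right_inv p := by
    obtain ⟨⟨c, hc⟩, x⟩ := p
    simp only [Function.update_idem, Function.update_self, Prod.mk.injEq, Subtype.mk.injEq, and_true]
    rw [Function.update_of_ne huv, hc]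
    simp

lemma card_mono_pair {m : ℕ} (u v : V) (huv : u ≠ v) :
    (univ.filter (fun c : V → Fin m => c u = c v)).card * m = m ^ Fintype.card V := by
  have h := Fintype.card_congr (colEquiv (m := m) u v huv)
  rw [Fintype.card_prod, Fintype.card_fin, Fintype.card_fun, Fintype.card_fin,
    Fintype.card_subtype] at h
  exact h.symm

lemma card_filter_mono {m : ℕ} (hm : 0 < m) (e : Sym2 V) (he : ¬ e.IsDiag) [Nonempty V]
    (S : Finset (Sym2 V)) (heS : e ∈ S) :
    (univ.filter (fun c : V → Fin m => e ∈ mono S c)).card = m ^ (Fintype.card V - 1) := by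
  induction e using Sym2.ind with
  | _ u v =>
    have huv : u ≠ v := by simpa using he
    have h1 : (univ.filter (fun c : V → Fin m => s(u, v) ∈ mono S c)) =
        univ.filter (fun c : V → Fin m => c u = c v) := by
      ext c
      simp [mem_mono, heS]
    rw [h1]
    have h2 := card_mono_pair (m := m) u v huv
    have h3 : m ^ Fintype.card V = m ^ (Fintype.card V - 1) * m := by
      rw [← pow_succ, Nat.sub_add_cancel Fintype.card_pos]
    rw [h3] at h2
    exact Nat.eq_of_mul_eq_mul_right hm h2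

lemma sum_card_mono {m : ℕ} (hm : 0 < m) [Nonempty V] (S : Finset (Sym2 V))
    (hS : ∀ e ∈ S, ¬ e.IsDiag) :
    ∑ c : V → Fin m, (mono S c).card = m ^ (Fintype.card V - 1) * S.card := by
  classical
  have h1 : ∀ c : V → Fin m, (mono S c).card = ∑ e ∈ S, if e ∈ mono S c then 1 else 0 := by
    intro c
    rw [← Finset.card_filter]
    congr 1
    ext e
    simp only [mem_filter, mem_mono]
    tauto
  simp_rw [h1]
  rw [Finset.sum_comm]
  have h2 : ∀ e ∈ S, (∑ c : V → Fin m, if e ∈ mono S c then 1 else 0) = m ^ (Fintype.card V - 1) := by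
    intro e he
    rw [← Finset.card_filter]
    exact card_filter_mono hm e (hS e he) S he
  rw [Finset.sum_congr rfl h2]
  simp [mul_comm]

/-- Superadditivity of the geometric mean. -/
lemma gm_superadd {ι : Type*} (C : Finset ι) (hC : C.Nonempty) (x y : ι → ℝ)
    (hx : ∀ c ∈ C, 0 < x c) (hy : ∀ c ∈ C, 0 < y c) :
    (∏ c ∈ C, x c) ^ (1 / (C.card : ℝ)) + (∏ c ∈ C, y c) ^ (1 / (C.card : ℝ)) ≤
      (∏ c ∈ C, (x c + y c)) ^ (1 / (C.card : ℝ)) := by
  set w : ℝ := 1 / (C.card : ℝ) with hw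
  have hcard : (0 : ℝ) < C.card := by exact_mod_cast hC.card_pos
  have hw0 : 0 ≤ w := by positivity
  have hsum : ∑ _c ∈ C, w = 1 := by
    rw [sum_const, nsmul_eq_mul, hw]; field_simp
  have h1 := Real.geom_mean_le_arith_mean_weighted C (fun _ => w) (fun c => x c / (x c + y c))
    (fun _ _ => hw0) hsum (fun c hc => by have := hx c hc; have := hy c hc; positivity)
  have h2 := Real.geom_mean_le_arith_mean_weighted C (fun _ => w) (fun c => y c / (x c + y c))
    (fun _ _ => hw0) hsum (fun c hc => by have := hx c hc; have := hy c hc; positivity)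
  have h3 : (∑ c ∈ C, w * (x c / (x c + y c))) + (∑ c ∈ C, w * (y c / (x c + y c))) = 1 := by
    rw [← sum_add_distrib, ← hsum]
    apply sum_congr rfl
    intro c hc
    have := hx c hc; have := hy c hc
    field_simp
  have hP : 0 < ∏ c ∈ C, (x c + y c) := Finset.prod_pos (fun c hc => add_pos (hx c hc) (hy c hc))
  have hPw : 0 < (∏ c ∈ C, (x c + y c)) ^ w := Real.rpow_pos_of_pos hP _
  have e1 : (∏ c ∈ C, (x c / (x c + y c)) ^ w) = (∏ c ∈ C, x c) ^ w / (∏ c ∈ C, (x c + y c)) ^ w := by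
    rw [Real.finsetProd_rpow _ _ (fun c hc => by have := hx c hc; have := hy c hc; positivity),
      Finset.prod_div_distrib, Real.div_rpow (Finset.prod_nonneg (fun c hc => (hx c hc).le)) hP.le]
  have e2 : (∏ c ∈ C, (y c / (x c + y c)) ^ w) = (∏ c ∈ C, y c) ^ w / (∏ c ∈ C, (x c + y c)) ^ w := by
    rw [Real.finsetProd_rpow _ _ (fun c hc => by have := hx c hc; have := hy c hc; positivity),
      Finset.prod_div_distrib, Real.div_rpow (Finset.prod_nonneg (fun c hc => (hy c hc).le)) hP.le]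
  have e1' := e1 ▸ h1
  have e2' := e2 ▸ h2
  have h4 : (∏ c ∈ C, x c) ^ w / (∏ c ∈ C, (x c + y c)) ^ w +
      (∏ c ∈ C, y c) ^ w / (∏ c ∈ C, (x c + y c)) ^ w ≤ 1 := by
    rw [← h3]; exact add_le_add e1' e2'
  rw [← add_div, div_le_one hPw] at h4
  exact h4

/-- Cross version of the classical bound: if two families of subsets of `S` are large enough then
for some colouring with `m` colours they contain members agreeing on all monochromatic edges. -/
lemma cross {m : ℕ} (hm : 0 < m) [Nonempty V] (S : Finset (Sym2 V)) (hS : ∀ e ∈ S, ¬ e.IsDiag)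
    (𝒜 ℬ : Finset (Finset (Sym2 V))) (hA : 𝒜.Nonempty) (hB : ℬ.Nonempty)
    (hAS : ∀ A ∈ 𝒜, A ⊆ S) (hBS : ∀ B ∈ ℬ, B ⊆ S)
    (h : ((2 : ℝ) ^ S.card) ^ (1 / (m : ℝ)) <
      (𝒜.card : ℝ) ^ (1 / (m : ℝ)) + (ℬ.card : ℝ) ^ (1 / (m : ℝ))) :
    ∃ c : V → Fin m, ∃ A ∈ 𝒜, ∃ B ∈ ℬ, A ∩ mono S c = B ∩ mono S c := by
  classical
  by_contra hcon
  push Not at hcon
  haveI : NeZero m := ⟨hm.ne'⟩
  set k : ℕ := m ^ (Fintype.card V - 1) with hk
  have hcardC : (univ : Finset (V → Fin m)).card = k * m := by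
    rw [card_univ, Fintype.card_fun, Fintype.card_fin, hk, ← pow_succ,
      Nat.sub_add_cancel Fintype.card_pos]
  have hk0 : 0 < k := pow_pos hm _
  have hCne : (univ : Finset (V → Fin m)).Nonempty := univ_nonempty
  have hdisj : ∀ c : V → Fin m,
      (tr 𝒜 (mono S c)).card + (tr ℬ (mono S c)).card ≤ 2 ^ (mono S c).card := by
    intro c
    have hd : Disjoint (tr 𝒜 (mono S c)) (tr ℬ (mono S c)) := by
      rw [Finset.disjoint_left]
      intro X hX hX'
      obtain ⟨A, hA1, hA2⟩ := mem_tr.1 hX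
      obtain ⟨B, hB1, hB2⟩ := mem_tr.1 hX'
      exact hcon c A hA1 B hB1 (hA2.trans hB2.symm)
    rw [← card_union_of_disjoint hd, ← card_powerset]
    exact card_le_card (union_subset (tr_subset_powerset _ _) (tr_subset_powerset _ _))
  have hSh : ∀ 𝒞 : Finset (Finset (Sym2 V)), 𝒞.Nonempty → (∀ A ∈ 𝒞, A ⊆ S) →
      (𝒞.card : ℝ) ^ (1 / (m : ℝ)) ≤
        (∏ c : V → Fin m, ((tr 𝒞 (mono S c)).card : ℝ)) ^
          (1 / ((univ : Finset (V → Fin m)).card : ℝ)) := by
    intro 𝒞 h1 h2
    have := shearer (univ : Finset (V → Fin m)) (fun c => mono S c) k S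
      (fun e he => (card_filter_mono hm e (hS e he) S he).ge) 𝒞 h1 h2
    have h3 : (𝒞.card : ℝ) ^ (1 / (m : ℝ)) =
        ((𝒞.card : ℝ) ^ k) ^ (1 / ((univ : Finset (V → Fin m)).card : ℝ)) := by
      rw [hcardC, ← Real.rpow_natCast (𝒞.card : ℝ) k, ← Real.rpow_mul (by positivity)]
      congr 1
      push_cast
      field_simp
    rw [h3]
    gcongr
  have hgm := gm_superadd (univ : Finset (V → Fin m)) hCne
    (fun c => ((tr 𝒜 (mono S c)).card : ℝ)) (fun c => ((tr ℬ (mono S c)).card : ℝ))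
    (fun c _ => by exact_mod_cast (tr_nonempty hA _).card_pos)
    (fun c _ => by exact_mod_cast (tr_nonempty hB _).card_pos)
  have hup : (∏ c : V → Fin m, (((tr 𝒜 (mono S c)).card : ℝ) + ((tr ℬ (mono S c)).card : ℝ))) ≤
      (2 : ℝ) ^ (k * S.card) := by
    rw [← sum_card_mono hm S hS, ← Finset.prod_pow_eq_pow_sum]
    apply Finset.prod_le_prod
    · intro c _; positivity
    · intro c _
      exact_mod_cast hdisj c
  have hfin : (∏ c : V → Fin m, (((tr 𝒜 (mono S c)).card : ℝ) + ((tr ℬ (mono S c)).card : ℝ))) ^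
      (1 / ((univ : Finset (V → Fin m)).card : ℝ)) ≤ ((2 : ℝ) ^ S.card) ^ (1 / (m : ℝ)) := by
    have h1 : ((2 : ℝ) ^ S.card) ^ (1 / (m : ℝ)) =
        ((2 : ℝ) ^ (k * S.card)) ^ (1 / ((univ : Finset (V → Fin m)).card : ℝ)) := by
      rw [hcardC, ← Real.rpow_natCast (2 : ℝ) S.card, ← Real.rpow_natCast (2 : ℝ) (k * S.card),
        ← Real.rpow_mul (by positivity), ← Real.rpow_mul (by positivity)]
      congr 1
      push_cast
      field_simp
    rw [h1]
    apply Real.rpow_le_rpow _ hup (by positivity)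
    apply Finset.prod_nonneg
    intro c _; positivity
  have := hSh 𝒜 hA hAS
  have := hSh ℬ hB hBS
  linarith

end Pool.Agent.Helper34.E243
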