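import Mathlib

set_option autoImplicit false

namespace Pool.Agent.Helper34.E243

open Finset

/-- The rank of `A` in `T` with respect to `f`: number of elements with value at least `f A`. -/
noncomputable def rk {β : Type*} (T : Finset β) (f : β → ℝ) (A : β) : ℕ :=
  by classical exact (T.filter (fun A' => f A ≤ f A')).card

lemma rk_pos {β : Type*} {T : Finset β} {f : β → ℝ} {A : β} (hA : A ∈ T) : 0 < rk T f A := by
  classical
  unfold rk
  apply card_pos.2
  exact ⟨A, by simp [hA]⟩

lemma rk_le {β : Type*} {T : Finset β} {f : β → ℝ} {A : β} : rk T f A ≤ T.card := by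
  classical
  unfold rk
  exact card_le_card (filter_subset _ _)

lemma sum_rk_le {β : Type*} (T : Finset β) (f : β → ℝ) (φ : ℕ → ℝ) (hφ : Antitone φ) :
    ∑ A ∈ T, φ (rk T f A) ≤ ∑ i ∈ range T.card, φ (i + 1) := by
  classical
  induction T using Finset.induction_on_min_value f with
  | empty => simp
  | insert a s ha hmin ih =>
    rw [sum_insert ha, card_insert_of_notMem ha, sum_range_succ, add_comm]
    have h1 : rk (insert a s) f a = s.card + 1 := by
      unfold rk
      rw [← card_insert_of_notMem ha]
      congr 1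
      ext x
      simp only [mem_filter, mem_insert]
      constructor
      · rintro ⟨h, _⟩; exact h
      · rintro (rfl | h)
        · exact ⟨Or.inl rfl, le_rfl⟩
        · exact ⟨Or.inr h, hmin x h⟩
    rw [h1]
    have h2 : ∑ A ∈ s, φ (rk (insert a s) f A) ≤ ∑ A ∈ s, φ (rk s f A) := by
      apply sum_le_sum
      intro x _
      apply hφ
      unfold rk
      exact card_le_card (filter_subset_filter _ (subset_insert _ _))
    linarith

lemma card_rk_le {β : Type*} (T : Finset β) (f : β → ℝ) (ρ : ℝ) (hρ : 0 ≤ ρ) :
    ((T.filter (fun B => (rk T f B : ℝ) ≤ ρ)).card : ℝ) ≤ ρ := by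
  classical
  rcases (T.filter (fun B => (rk T f B : ℝ) ≤ ρ)).eq_empty_or_nonempty with h | h
  · rw [h]; simpa using hρ
  · obtain ⟨B0, hB0, hmin⟩ := exists_min_image _ f h
    rw [mem_filter] at hB0
    refine le_trans ?_ hB0.2
    norm_cast
    unfold rk
    apply card_le_card
    intro x hx
    have := hmin x hx
    rw [mem_filter] at hx ⊢
    exact ⟨hx.1, this⟩

/-- Beta integral with natural exponents. -/
lemma beta_int (R : ℝ) (b : ℕ) : ∀ a : ℕ,
    ∫ x in (0 : ℝ)..R, x ^ a * (R - x) ^ b =
      R ^ (a + b + 1) * (a.factorial * b.factorial) / (a + b + 1).factorial := by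
  induction b with
  | zero =>
    intro a
    simp only [pow_zero, mul_one, Nat.factorial_zero, Nat.cast_one, add_zero]
    rw [integral_pow, Nat.factorial_succ]
    have : (a.factorial : ℝ) ≠ 0 := by positivity
    push_cast
    field_simp
    simp
  | succ b ih =>
    intro a
    have hrec : (a + 1 : ℝ) * (∫ x in (0 : ℝ)..R, x ^ a * (R - x) ^ (b + 1)) =
        (b + 1 : ℝ) * (∫ x in (0 : ℝ)..R, x ^ (a + 1) * (R - x) ^ b) := by
      have hderiv : ∀ x ∈ Set.uIcc (0 : ℝ) R, HasDerivAt (fun y => y ^ (a + 1) * (R - y) ^ (b + 1))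
          ((a + 1 : ℝ) * (x ^ a * (R - x) ^ (b + 1)) - (b + 1 : ℝ) * (x ^ (a + 1) * (R - x) ^ b)) x := by
        intro x _
        have h1 : HasDerivAt (fun y : ℝ => y ^ (a + 1)) (((a + 1 : ℕ) : ℝ) * x ^ a) x := by
          simpa using hasDerivAt_pow (a + 1) x
        have h2 : HasDerivAt (fun y : ℝ => R - y) (-1) x := by
          simpa using (hasDerivAt_id x).const_sub R
        have h3 := h2.pow (b + 1)
        have h4 : HasDerivAt (fun y : ℝ => y ^ (a + 1) * (R - y) ^ (b + 1)) _ x := h1.mul h3
        refine h4.congr_deriv ?_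
        simp only [Nat.add_sub_cancel]
        push_cast
        ring
      have hint := intervalIntegral.integral_eq_sub_of_hasDerivAt hderiv
        (by apply Continuous.intervalIntegrable; fun_prop)
      rw [intervalIntegral.integral_sub, intervalIntegral.integral_const_mul,
        intervalIntegral.integral_const_mul] at hint
      · simp at hint
        linarith
      · apply Continuous.intervalIntegrable; fun_prop
      · apply Continuous.intervalIntegrable; fun_prop
    rw [ih (a + 1)] at hrec
    have ha : (a + 1 : ℝ) ≠ 0 := by positivity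
    have e : a + 1 + b + 1 = a + (b + 1) + 1 := by ring
    rw [e] at hrec
    apply mul_left_cancel₀ ha
    rw [hrec, Nat.factorial_succ a, Nat.factorial_succ b]
    push_cast
    ring

lemma int_central (R : ℝ) (j : ℕ) (hj : 0 < j) :
    ∫ x in (0 : ℝ)..R, (j * x ^ (j - 1)) * (R - x) ^ j = R ^ (2 * j) / (Nat.centralBinom j) := by
  have h1 : ∀ x : ℝ, (j * x ^ (j - 1)) * (R - x) ^ j = j * (x ^ (j - 1) * (R - x) ^ j) := by
    intro x; ring
  simp_rw [h1]
  rw [intervalIntegral.integral_const_mul, beta_int]
  have h2 : j - 1 + j + 1 = 2 * j := by omega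
  rw [h2]
  have h3 : (j : ℝ) * ((j - 1).factorial : ℝ) = (j.factorial : ℝ) := by
    exact_mod_cast Nat.mul_factorial_pred hj.ne'
  have h4 : (Nat.centralBinom j : ℝ) * (j.factorial * j.factorial) = ((2 * j).factorial : ℝ) := by
    have := Nat.choose_mul_factorial_mul_factorial (show j ≤ 2 * j by omega)
    rw [show 2 * j - j = j by omega] at this
    rw [Nat.centralBinom_eq_two_mul_choose]
    have h5 : ((2 * j).choose j * j.factorial * j.factorial : ℕ) = (2 * j).factorial := this
    exact_mod_cast (by rw [← mul_assoc]; exact h5 : (2 * j).choose j * (j.factorial * j.factorial) = (2 * j).factorial)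
  have h5 : (Nat.centralBinom j : ℝ) ≠ 0 := by
    exact_mod_cast (Nat.centralBinom_pos j).ne'
  have h6 : (j.factorial : ℝ) ≠ 0 := by positivity
  rw [← h4]
  field_simp
  rw [← h3]
  ring

end Pool.Agent.Helper34.E243
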