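import Mathlib
import Pool.Agent.Helper34.E243.Coloring
import Pool.Agent.Helper34.E243.Ranks

set_option autoImplicit false

namespace Pool.Agent.Helper34.E243

open Finset

lemma sum_root_le (N j : ℕ) (hj : 0 < j) :
    ∑ i ∈ range N, ((N : ℝ) ^ (1 / (j : ℝ)) - ((i + 1 : ℕ) : ℝ) ^ (1 / (j : ℝ))) ^ j ≤
      (N : ℝ) ^ 2 / (Nat.centralBinom j) := by
  set R : ℝ := (N : ℝ) ^ (1 / (j : ℝ)) with hR
  set y : ℕ → ℝ := fun i => (i : ℝ) ^ (1 / (j : ℝ)) with hy
  have hj0 : (0 : ℝ) < j := by exact_mod_cast hj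
  have hyj : ∀ i, y i ^ j = i := by
    intro i
    simp only [hy]
    rw [← Real.rpow_natCast, ← Real.rpow_mul (by positivity)]
    rw [one_div, inv_mul_cancel₀ hj0.ne', Real.rpow_one]
  have hy0 : y 0 = 0 := by
    simp only [hy]
    rw [Nat.cast_zero, Real.zero_rpow (by positivity)]
  have hymono : Monotone y := by
    intro a b hab
    simp only [hy]
    have : (a : ℝ) ≤ b := by exact_mod_cast hab
    gcongr
  have hypos : ∀ i, 0 ≤ y i := by intro i; simp only [hy]; positivity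
  have hRy : R = y N := rfl
  have hcont : Continuous (fun x : ℝ => (j * x ^ (j - 1)) * (R - x) ^ j) := by fun_prop
  have hadj := intervalIntegral.sum_integral_adjacent_intervals (μ := MeasureTheory.volume)
    (f := fun x : ℝ => (j * x ^ (j - 1)) * (R - x) ^ j) (a := y) (n := N)
    (fun k _ => hcont.intervalIntegrable _ _)
  have hone : ∀ i ∈ range N, (R - y (i + 1)) ^ j ≤
      ∫ x in (y i)..(y (i + 1)), (j * x ^ (j - 1)) * (R - x) ^ j := by
    intro i hi
    have hiN : i + 1 ≤ N := mem_range.1 hi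
    have h1 : ∫ x in (y i)..(y (i + 1)), (j * x ^ (j - 1)) * (R - y (i + 1)) ^ j =
        (R - y (i + 1)) ^ j := by
      rw [intervalIntegral.integral_mul_const, intervalIntegral.integral_const_mul, integral_pow]
      have h2 : j - 1 + 1 = j := Nat.sub_add_cancel hj
      have h3 : ((j - 1 : ℕ) : ℝ) + 1 = j := by exact_mod_cast h2
      rw [h2, h3, hyj, hyj]
      push_cast
      field_simp
      ring
    rw [← h1]
    apply intervalIntegral.integral_mono_on (hymono (Nat.le_succ i))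
    · apply Continuous.intervalIntegrable; fun_prop
    · exact hcont.intervalIntegrable _ _
    · intro x hx
      have hx0 : 0 ≤ x := (hypos i).trans hx.1
      have hxR : 0 ≤ R - y (i + 1) := by rw [hRy]; linarith [hymono hiN]
      have hx2 : R - y (i + 1) ≤ R - x := by linarith [hx.2]
      gcongr
  calc ∑ i ∈ range N, (R - y (i + 1)) ^ j
      ≤ ∑ i ∈ range N, ∫ x in (y i)..(y (i + 1)), (j * x ^ (j - 1)) * (R - x) ^ j :=
        sum_le_sum hone
    _ = ∫ x in (0 : ℝ)..R, (j * x ^ (j - 1)) * (R - x) ^ j := by rw [hadj, hy0, hRy]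
    _ = (N : ℝ) ^ 2 / (Nat.centralBinom j) := by
        rw [int_central R j hj]
        congr 1
        rw [mul_comm, pow_mul, hRy, hyj]

lemma pair_count {β : Type*} (T : Finset β) (f g : β → ℝ) (j : ℕ) (hj : 0 < j) :
    (((T ×ˢ T).filter (fun p => (rk T f p.1 : ℝ) ^ (1 / (j : ℝ)) + (rk T g p.2 : ℝ) ^ (1 / (j : ℝ)) ≤
      (T.card : ℝ) ^ (1 / (j : ℝ)))).card : ℝ) ≤ (T.card : ℝ) ^ 2 / (Nat.centralBinom j) := by
  classical
  have hj0 : (0 : ℝ) < j := by exact_mod_cast hj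
  set R : ℝ := (T.card : ℝ) ^ (1 / (j : ℝ)) with hR
  set φ : ℕ → ℝ := fun i => (max 0 (R - (i : ℝ) ^ (1 / (j : ℝ)))) ^ j with hφ
  have hanti : Antitone φ := by
    intro a b hab
    simp only [hφ]
    have : (a : ℝ) ≤ b := by exact_mod_cast hab
    gcongr
  have h1 : (((T ×ˢ T).filter (fun p => (rk T f p.1 : ℝ) ^ (1 / (j : ℝ)) +
      (rk T g p.2 : ℝ) ^ (1 / (j : ℝ)) ≤ R)).card : ℝ) =
      ∑ A ∈ T, ((T.filter (fun B => (rk T f A : ℝ) ^ (1 / (j : ℝ)) +
      (rk T g B : ℝ) ^ (1 / (j : ℝ)) ≤ R)).card : ℝ) := by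
    rw [card_filter, sum_product]
    push_cast
    apply sum_congr rfl
    intro A _
    rw [card_filter]
    push_cast
    rfl
  rw [h1]
  have h2 : ∀ A ∈ T, ((T.filter (fun B => (rk T f A : ℝ) ^ (1 / (j : ℝ)) +
      (rk T g B : ℝ) ^ (1 / (j : ℝ)) ≤ R)).card : ℝ) ≤ φ (rk T f A) := by
    intro A _
    have h3 : T.filter (fun B => (rk T f A : ℝ) ^ (1 / (j : ℝ)) +
      (rk T g B : ℝ) ^ (1 / (j : ℝ)) ≤ R) ⊆ T.filter (fun B => (rk T g B : ℝ) ≤ φ (rk T f A)) := by
      intro B hB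
      rw [mem_filter] at hB ⊢
      refine ⟨hB.1, ?_⟩
      have h4 : (rk T g B : ℝ) = ((rk T g B : ℝ) ^ (1 / (j : ℝ))) ^ j := by
        rw [← Real.rpow_natCast, ← Real.rpow_mul (by positivity)]
        rw [one_div, inv_mul_cancel₀ hj0.ne', Real.rpow_one]
      rw [h4]
      simp only [hφ]
      have h5 : (rk T g B : ℝ) ^ (1 / (j : ℝ)) ≤ max 0 (R - (rk T f A : ℝ) ^ (1 / (j : ℝ))) :=
        le_max_of_le_right (by linarith [hB.2])
      gcongr
    refine le_trans (Nat.cast_le.2 (card_le_card h3)) ?_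
    apply card_rk_le
    simp only [hφ]; positivity
  refine (sum_le_sum h2).trans ?_
  refine (sum_rk_le T f φ hanti).trans ?_
  refine le_trans (le_of_eq ?_) (sum_root_le T.card j hj)
  apply sum_congr rfl
  intro i hi
  simp only [hφ]
  have : ((i + 1 : ℕ) : ℝ) ^ (1 / (j : ℝ)) ≤ R := by
    rw [hR]
    have : ((i + 1 : ℕ) : ℝ) ≤ T.card := by exact_mod_cast mem_range.1 hi
    gcongr
  rw [max_eq_right (by linarith)]

lemma series_aux (J : ℕ) (hJ : 10 ≤ J) :
    ∑ j ∈ Icc 1 J, (3 : ℝ) ^ j / (Nat.centralBinom j) +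
      (3 + 12 / (2 * (J : ℝ) + 1)) * ((3 : ℝ) ^ J / (Nat.centralBinom J)) ≤ 21 / 2 := by
  induction J, hJ using Nat.le_induction with
  | base =>
    rw [show Icc 1 10 = {1, 2, 3, 4, 5, 6, 7, 8, 9, 10} by rfl]
    simp only [Nat.centralBinom]
    norm_num [Nat.choose]
  | succ J hJ ih =>
    rw [Finset.sum_Icc_succ_top (by omega : 1 ≤ J + 1)]
    refine le_trans ?_ ih
    have hc := Nat.succ_mul_centralBinom_succ J
    have hc' : ((J : ℝ) + 1) * (Nat.centralBinom (J + 1) : ℝ) =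
        2 * (2 * (J : ℝ) + 1) * (Nat.centralBinom J : ℝ) := by exact_mod_cast hc
    have hp1 : (0 : ℝ) < Nat.centralBinom (J + 1) := by exact_mod_cast Nat.centralBinom_pos _
    have hp0 : (0 : ℝ) < Nat.centralBinom J := by exact_mod_cast Nat.centralBinom_pos _
    have hJ0 : (0 : ℝ) ≤ J := by positivity
    have hrat : (3 : ℝ) ^ (J + 1) / (Nat.centralBinom (J + 1)) =
        (3 * ((J : ℝ) + 1) / (2 * (2 * (J : ℝ) + 1))) * ((3 : ℝ) ^ J / (Nat.centralBinom J)) := by
      rw [div_mul_div_comm, div_eq_div_iff (by positivity) (by positivity), pow_succ]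
      calc (3 : ℝ) ^ J * 3 * (2 * (2 * (J : ℝ) + 1) * (Nat.centralBinom J))
          = (3 : ℝ) ^ J * 3 * (((J : ℝ) + 1) * (Nat.centralBinom (J + 1) : ℝ)) := by rw [hc']
        _ = _ := by ring
    rw [hrat]
    set t : ℝ := (3 : ℝ) ^ J / (Nat.centralBinom J) with ht
    have ht0 : 0 < t := by positivity
    have key : (3 * ((J : ℝ) + 1) / (2 * (2 * (J : ℝ) + 1))) * (4 + 12 / (2 * ((J : ℝ) + 1) + 1)) ≤
        3 + 12 / (2 * (J : ℝ) + 1) := by
      have e1 : 3 + 12 / (2 * (J : ℝ) + 1) = (6 * J + 15) / (2 * (J : ℝ) + 1) := by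
        field_simp; ring
      have e2 : (3 * ((J : ℝ) + 1) / (2 * (2 * (J : ℝ) + 1))) * (4 + 12 / (2 * ((J : ℝ) + 1) + 1)) =
          (12 * (J + 3) * (J + 1) / (2 * J + 3)) / (2 * (J : ℝ) + 1) := by
        field_simp; ring
      rw [e1, e2]
      gcongr
      rw [div_le_iff₀ (by positivity)]
      nlinarith
    push_cast
    have := mul_le_mul_of_nonneg_right key ht0.le
    linarith

lemma series_le (J : ℕ) :
    ∑ j ∈ Icc 1 J, (3 : ℝ) ^ j / (Nat.centralBinom j) ≤ 21 / 2 := by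
  have h1 := series_aux (max J 10) (le_max_right _ _)
  have h2 : ∑ j ∈ Icc 1 J, (3 : ℝ) ^ j / (Nat.centralBinom j) ≤
      ∑ j ∈ Icc 1 (max J 10), (3 : ℝ) ^ j / (Nat.centralBinom j) := by
    apply sum_le_sum_of_subset_of_nonneg
    · exact Icc_subset_Icc_right (le_max_left _ _)
    · intro i _ _; positivity
  have h3 : 0 ≤ (3 + 12 / (2 * ((max J 10 : ℕ) : ℝ) + 1)) *
      ((3 : ℝ) ^ (max J 10) / (Nat.centralBinom (max J 10))) := by positivity
  linarith

end Pool.Agent.Helper34.E243
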