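import Mathlib
import Pool.Agent.Helper34.E243.Block

set_option autoImplicit false

namespace Pool.Agent.Helper34.E243

open Finset

variable {V : Type*} [Fintype V] [DecidableEq V]

lemma pow_three_split (m n : ℕ) (hm : 1 ≤ m) (hmn : m ≤ n + 1) (P : ℕ → Prop) [DecidablePred P]
    (hP : ∀ j, 1 ≤ j → j < m → P j) :
    (3 : ℝ) ^ m ≤ 3 + ∑ j ∈ Icc 1 n, if P j then 2 * (3 : ℝ) ^ j else 0 := by
  have h1 : ∀ m : ℕ, 1 ≤ m → (3 : ℝ) ^ m = 3 + ∑ j ∈ Ico 1 m, 2 * (3 : ℝ) ^ j := by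
    intro m hm
    induction m, hm using Nat.le_induction with
    | base => simp
    | succ m hm ih => rw [Finset.sum_Ico_succ_top hm, ← add_assoc, ← ih]; ring
  rw [h1 m hm]
  have h2 : ∑ j ∈ Ico 1 m, 2 * (3 : ℝ) ^ j = ∑ j ∈ Ico 1 m, if P j then 2 * (3 : ℝ) ^ j else 0 := by
    apply sum_congr rfl
    intro j hj
    rw [mem_Ico] at hj
    rw [if_pos (hP j hj.1 hj.2)]
  rw [h2]
  have h3 : Ico 1 m ⊆ Icc 1 n := by
    intro j hj
    rw [mem_Ico] at hj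
    rw [mem_Icc]
    omega
  have := sum_le_sum_of_subset_of_nonneg (f := fun j => if P j then 2 * (3 : ℝ) ^ j else 0) h3
    (fun i _ _ => by positivity)
  linarith

/-- The inequality for one block. -/
theorem block [Nonempty V] (S : Finset (Sym2 V)) (hS : ∀ e ∈ S, ¬ e.IsDiag)
    (f g : Finset (Sym2 V) → ℝ) (hf : ∀ A, 0 ≤ f A) (hg : ∀ A, 0 ≤ g A) :
    ∃ (m : ℕ) (col : V → Fin m) (A B : Finset (Sym2 V)), A ⊆ S ∧ B ⊆ S ∧
      (∀ e, e ∈ A → e ∉ B → ¬ (e.map col).IsDiag) ∧ (∀ e, e ∈ B → e ∉ A → ¬ (e.map col).IsDiag) ∧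
      (3 : ℝ) ^ m * ((∑ A ∈ S.powerset, f A) * (∑ B ∈ S.powerset, g B)) ≤
        24 * 4 ^ S.card * (f A * g B) := by
  classical
  by_contra hcon
  push Not at hcon
  set T := S.powerset with hT
  have hTcard : (T.card : ℝ) = (2 : ℝ) ^ S.card := by rw [hT, card_powerset]; push_cast; rfl
  have hTne : T.Nonempty := ⟨∅, by simp [hT]⟩
  set P : ℝ := (∑ A ∈ T, f A) * (∑ B ∈ T, g B) with hP
  have hP0 : 0 < P := by
    have h := hcon 1 (fun _ => 0) ∅ ∅ (by simp) (by simp) (by simp) (by simp)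
    have h2 : 0 ≤ f ∅ * g ∅ := mul_nonneg (hf _) (hg _)
    have h3 : (0 : ℝ) ≤ 24 * 4 ^ S.card * (f ∅ * g ∅) := by positivity
    have h4 : 0 < (3 : ℝ) ^ 1 * P := lt_of_le_of_lt h3 h
    linarith
  let cond : Finset (Sym2 V) → Finset (Sym2 V) → ℕ → Prop := fun A B m =>
    (T.card : ℝ) ^ (1 / (m : ℝ)) < (rk T f A : ℝ) ^ (1 / (m : ℝ)) + (rk T g B : ℝ) ^ (1 / (m : ℝ))
  -- consequence of the cross lemma
  have hcross : ∀ A ∈ T, ∀ B ∈ T, ∀ m : ℕ, 1 ≤ m → cond A B m →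
      24 * 4 ^ S.card * (f A * g B) < (3 : ℝ) ^ m * P := by
    intro A hA B hB m hm hc
    have hc' : ((2 : ℝ) ^ S.card) ^ (1 / (m : ℝ)) <
        ((T.filter (fun A' => f A ≤ f A')).card : ℝ) ^ (1 / (m : ℝ)) +
        ((T.filter (fun B' => g B ≤ g B')).card : ℝ) ^ (1 / (m : ℝ)) := by
      have : (T.card : ℝ) ^ (1 / (m : ℝ)) <
        (rk T f A : ℝ) ^ (1 / (m : ℝ)) + (rk T g B : ℝ) ^ (1 / (m : ℝ)) := hc
      rw [hTcard] at this
      unfold rk at this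
      convert this
    obtain ⟨col, A', hA', B', hB', hAB⟩ := cross (m := m) hm S hS
      (T.filter (fun A' => f A ≤ f A')) (T.filter (fun B' => g B ≤ g B'))
      ⟨A, by simp [hA]⟩ ⟨B, by simp [hB]⟩
      (fun X hX => mem_powerset.1 (mem_filter.1 hX).1)
      (fun X hX => mem_powerset.1 (mem_filter.1 hX).1) hc'
    rw [mem_filter] at hA' hB'
    have hA'S := mem_powerset.1 hA'.1
    have hB'S := mem_powerset.1 hB'.1
    have h := hcon m col A' B' hA'S hB'S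
      (by
        intro e he1 he2 hd
        have : e ∈ A' ∩ mono S col := mem_inter.2 ⟨he1, mem_mono.2 ⟨hA'S he1, hd⟩⟩
        rw [hAB] at this
        exact he2 (mem_inter.1 this).1)
      (by
        intro e he1 he2 hd
        have : e ∈ B' ∩ mono S col := mem_inter.2 ⟨he1, mem_mono.2 ⟨hB'S he1, hd⟩⟩
        rw [← hAB] at this
        exact he2 (mem_inter.1 this).1)
    refine lt_of_le_of_lt ?_ h
    have := mul_le_mul hA'.2 hB'.2 (hg B) (hf A')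
    gcongr
  -- the condition holds for some m ≤ |S| + 1
  have hex : ∀ A ∈ T, ∀ B ∈ T, cond A B (S.card + 1) := by
    intro A hA B hB
    have h1 : (1 : ℝ) ≤ (rk T f A : ℝ) := by exact_mod_cast rk_pos hA
    have h2 : (1 : ℝ) ≤ (rk T g B : ℝ) := by exact_mod_cast rk_pos hB
    have h3 : (1 : ℝ) ≤ (rk T f A : ℝ) ^ (1 / ((S.card + 1 : ℕ) : ℝ)) :=
      Real.one_le_rpow h1 (by positivity)
    have h4 : (1 : ℝ) ≤ (rk T g B : ℝ) ^ (1 / ((S.card + 1 : ℕ) : ℝ)) :=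
      Real.one_le_rpow h2 (by positivity)
    have h5 : (T.card : ℝ) ^ (1 / ((S.card + 1 : ℕ) : ℝ)) < 2 := by
      rw [hTcard, ← Real.rpow_natCast, ← Real.rpow_mul (by norm_num)]
      have h6 : (S.card : ℝ) * (1 / ((S.card + 1 : ℕ) : ℝ)) < 1 := by
        push_cast
        rw [mul_one_div, div_lt_one (by positivity)]
        linarith
      calc (2 : ℝ) ^ ((S.card : ℝ) * (1 / ((S.card + 1 : ℕ) : ℝ))) < 2 ^ (1 : ℝ) :=
            Real.rpow_lt_rpow_of_exponent_lt (by norm_num) h6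
        _ = 2 := by norm_num
    show (T.card : ℝ) ^ (1 / ((S.card + 1 : ℕ) : ℝ)) < _
    linarith
  have hpt : ∀ A ∈ T, ∀ B ∈ T, 24 * 4 ^ S.card * (f A * g B) <
      P * (3 + ∑ j ∈ Icc 1 S.card, if ¬ cond A B j then 2 * (3 : ℝ) ^ j else 0) := by
    intro A hA B hB
    have hex' : ∃ m, 1 ≤ m ∧ cond A B m := ⟨S.card + 1, by omega, hex A hA B hB⟩
    have hfind := Nat.find_spec hex'
    have hle : Nat.find hex' ≤ S.card + 1 := Nat.find_min' hex' ⟨by omega, hex A hA B hB⟩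
    have h1 := hcross A hA B hB _ hfind.1 hfind.2
    have h2 := pow_three_split (Nat.find hex') S.card hfind.1 hle (fun j => ¬ cond A B j) (by
      intro j hj1 hj2 hcj
      exact Nat.find_min hex' hj2 ⟨hj1, hcj⟩)
    calc 24 * 4 ^ S.card * (f A * g B) < (3 : ℝ) ^ (Nat.find hex') * P := h1
      _ ≤ (3 + ∑ j ∈ Icc 1 S.card, if ¬ cond A B j then 2 * (3 : ℝ) ^ j else 0) * P := by gcongr
      _ = _ := by ring
  have hsum : ∑ A ∈ T, ∑ B ∈ T, 24 * 4 ^ S.card * (f A * g B) <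
      ∑ A ∈ T, ∑ B ∈ T,
        P * (3 + ∑ j ∈ Icc 1 S.card, if ¬ cond A B j then 2 * (3 : ℝ) ^ j else 0) := by
    apply sum_lt_sum_of_nonempty hTne
    intro A hA
    apply sum_lt_sum_of_nonempty hTne
    intro B hB
    exact hpt A hA B hB
  have hL : ∑ A ∈ T, ∑ B ∈ T, 24 * 4 ^ S.card * (f A * g B) = 24 * 4 ^ S.card * P := by
    rw [hP, Finset.sum_mul_sum, mul_sum]
    apply sum_congr rfl
    intro A _
    rw [mul_sum]
  have hR : ∑ A ∈ T, ∑ B ∈ T,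
        P * (3 + ∑ j ∈ Icc 1 S.card, if ¬ cond A B j then 2 * (3 : ℝ) ^ j else 0) =
      P * (3 * (T.card : ℝ) ^ 2 + ∑ j ∈ Icc 1 S.card, 2 * (3 : ℝ) ^ j *
        (((T ×ˢ T).filter (fun p => (rk T f p.1 : ℝ) ^ (1 / (j : ℝ)) +
          (rk T g p.2 : ℝ) ^ (1 / (j : ℝ)) ≤ (T.card : ℝ) ^ (1 / (j : ℝ)))).card : ℝ)) := by
    have e1 : ∀ j, (((T ×ˢ T).filter (fun p => (rk T f p.1 : ℝ) ^ (1 / (j : ℝ)) +
          (rk T g p.2 : ℝ) ^ (1 / (j : ℝ)) ≤ (T.card : ℝ) ^ (1 / (j : ℝ)))).card : ℝ) =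
        ∑ A ∈ T, ∑ B ∈ T, if (rk T f A : ℝ) ^ (1 / (j : ℝ)) +
          (rk T g B : ℝ) ^ (1 / (j : ℝ)) ≤ (T.card : ℝ) ^ (1 / (j : ℝ)) then (1 : ℝ) else 0 := by
      intro j
      rw [card_filter, sum_product]
      push_cast
      rfl
    simp_rw [← mul_sum, sum_add_distrib]
    congr 2
    · simp only [sum_const, nsmul_eq_mul]; ring
    · have e2 : ∀ A ∈ T, (∑ B ∈ T, ∑ j ∈ Icc 1 S.card, if ¬ cond A B j then 2 * (3 : ℝ) ^ j else 0) =
          ∑ j ∈ Icc 1 S.card, ∑ B ∈ T, if ¬ cond A B j then 2 * (3 : ℝ) ^ j else 0 :=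
        fun A _ => sum_comm
      rw [sum_congr rfl e2, sum_comm]
      apply sum_congr rfl
      intro j _
      rw [e1 j, mul_sum]
      apply sum_congr rfl
      intro A _
      rw [mul_sum]
      apply sum_congr rfl
      intro B _
      simp only [cond, not_lt]
      split_ifs <;> simp
  rw [hL, hR] at hsum
  have hfin : 3 * (T.card : ℝ) ^ 2 + ∑ j ∈ Icc 1 S.card, 2 * (3 : ℝ) ^ j *
        (((T ×ˢ T).filter (fun p => (rk T f p.1 : ℝ) ^ (1 / (j : ℝ)) +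
          (rk T g p.2 : ℝ) ^ (1 / (j : ℝ)) ≤ (T.card : ℝ) ^ (1 / (j : ℝ)))).card : ℝ) ≤
      24 * 4 ^ S.card := by
    have h1 : ∀ j ∈ Icc 1 S.card, 2 * (3 : ℝ) ^ j *
        (((T ×ˢ T).filter (fun p => (rk T f p.1 : ℝ) ^ (1 / (j : ℝ)) +
          (rk T g p.2 : ℝ) ^ (1 / (j : ℝ)) ≤ (T.card : ℝ) ^ (1 / (j : ℝ)))).card : ℝ) ≤
        (2 * (T.card : ℝ) ^ 2) * ((3 : ℝ) ^ j / (Nat.centralBinom j)) := by
      intro j hj
      have := pair_count T f g j (mem_Icc.1 hj).1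
      calc _ ≤ 2 * (3 : ℝ) ^ j * ((T.card : ℝ) ^ 2 / (Nat.centralBinom j)) := by gcongr
        _ = _ := by ring
    have h2 := sum_le_sum h1
    rw [← mul_sum] at h2
    have h3 := series_le S.card
    have h4 : (T.card : ℝ) ^ 2 = 4 ^ S.card := by
      rw [hTcard, ← pow_mul, mul_comm, pow_mul]; norm_num
    rw [h4] at h2 ⊢
    have h5 : (0 : ℝ) < 4 ^ S.card := by positivity
    nlinarith
  nlinarith

end Pool.Agent.Helper34.E243
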