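import Mathlib
import Pool.Agent.Helper34.E243.BlockM

set_option autoImplicit false

namespace Pool.Agent.Helper34.E243

open Finset

lemma sum_powerset_union {α : Type*} [DecidableEq α] (X Y : Finset α) (h : Disjoint X Y)
    (f : Finset α → ℝ) :
    ∑ A ∈ (X ∪ Y).powerset, f A = ∑ A ∈ X.powerset, ∑ B ∈ Y.powerset, f (A ∪ B) := by
  rw [← sum_product' X.powerset Y.powerset (fun A B => f (A ∪ B))]
  symm
  apply Finset.sum_nbij' (fun p => p.1 ∪ p.2) (fun A => (A ∩ X, A ∩ Y))
  · rintro ⟨A, B⟩ hp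
    simp only [mem_product, mem_powerset] at hp ⊢
    exact union_subset_union hp.1 hp.2
  · intro A hA
    simp only [mem_product, mem_powerset] at hA ⊢
    exact ⟨inter_subset_right, inter_subset_right⟩
  · rintro ⟨A, B⟩ hp
    simp only [mem_product, mem_powerset] at hp
    simp only [Prod.mk.injEq]
    constructor
    · rw [union_inter_distrib_right, inter_eq_left.2 hp.1,
        disjoint_iff_inter_eq_empty.1 (h.symm.mono_left hp.2), union_empty]
    · rw [union_inter_distrib_right, inter_eq_left.2 hp.2,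
        disjoint_iff_inter_eq_empty.1 (h.mono_left hp.1), empty_union]
  · intro A hA
    simp only [mem_powerset] at hA
    simp only
    rw [← inter_union_distrib_left, inter_eq_left.2 hA]
  · intro p _
    rfl

variable {V : Type*} [Fintype V] [DecidableEq V]

/-- Edges of `S` with both ends of colour `i`. -/
def cls {s : ℕ} (S : Finset (Sym2 V)) (c : V → Fin s) (i : Fin s) : Finset (Sym2 V) :=
  S.filter (fun e => e.map c = s(i, i))

/-- Edges of `S` with both ends of the same colour, that colour lying in `I`. -/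
def clsU {s : ℕ} (S : Finset (Sym2 V)) (c : V → Fin s) (I : Finset (Fin s)) : Finset (Sym2 V) :=
  I.biUnion (cls S c)

lemma mem_clsU {s : ℕ} {S : Finset (Sym2 V)} {c : V → Fin s} {I : Finset (Fin s)} {e : Sym2 V} :
    e ∈ clsU S c I ↔ e ∈ S ∧ ∃ i ∈ I, e.map c = s(i, i) := by
  simp only [clsU, mem_biUnion, cls, mem_filter]
  constructor
  · rintro ⟨i, hi, hS, h⟩; exact ⟨hS, i, hi, h⟩
  · rintro ⟨hS, i, hi, h⟩; exact ⟨i, hi, hS, h⟩

theorem tensor [Nonempty V] {s : ℕ} (S : Finset (Sym2 V)) (hS : ∀ e ∈ S, ¬ e.IsDiag)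
    (c : V → Fin s) (I : Finset (Fin s)) :
    ∀ (f g : Finset (Sym2 V) → ℝ), (∀ A, 0 ≤ f A) → (∀ A, 0 ≤ g A) →
    ∃ (M : ℕ) (col : V → ℕ) (A B : Finset (Sym2 V)), A ⊆ clsU S c I ∧ B ⊆ clsU S c I ∧
      (∀ v, c v ∈ I → col v < M) ∧
      (∀ u v, c u ∈ I → c v ∈ I → c u ≠ c v → col u ≠ col v) ∧
      (∀ e, e ∈ A → e ∉ B → ¬ (e.map col).IsDiag) ∧ (∀ e, e ∈ B → e ∉ A → ¬ (e.map col).IsDiag) ∧
      (3 : ℝ) ^ M * ((∑ A ∈ (clsU S c I).powerset, f A) * (∑ B ∈ (clsU S c I).powerset, g B)) ≤
        24 ^ I.card * 4 ^ (clsU S c I).card * (f A * g B) := by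
  classical
  induction I using Finset.induction_on with
  | empty =>
    intro f g hf hg
    refine ⟨0, fun _ => 0, ∅, ∅, by simp, by simp, by simp, by simp, by simp, by simp, ?_⟩
    simp [clsU]
  | insert i I hi ih =>
    intro f g hf hg
    have hun : clsU S c (insert i I) = cls S c i ∪ clsU S c I := by
      simp [clsU, biUnion_insert]
    have hdis : Disjoint (cls S c i) (clsU S c I) := by
      rw [Finset.disjoint_left]
      intro e he he'
      simp only [cls, mem_filter] at he
      obtain ⟨_, j, hj, hej⟩ := mem_clsU.1 he'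
      have : i = j := by
        have h := he.2.symm.trans hej
        simpa using h
      exact hi (this ▸ hj)
    obtain ⟨m, col₁, A₁, B₁, hA₁, hB₁, hAB₁, hBA₁, hineq₁⟩ := block (cls S c i)
      (fun e he => hS e (mem_filter.1 he).1)
      (fun A => ∑ A₂ ∈ (clsU S c I).powerset, f (A ∪ A₂))
      (fun B => ∑ B₂ ∈ (clsU S c I).powerset, g (B ∪ B₂))
      (fun A => sum_nonneg (fun _ _ => hf _)) (fun B => sum_nonneg (fun _ _ => hg _))
    obtain ⟨M, col₂, A₂, B₂, hA₂, hB₂, hlt, hne, hAB₂, hBA₂, hineq₂⟩ := ih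
      (fun A => f (A₁ ∪ A)) (fun B => g (B₁ ∪ B)) (fun _ => hf _) (fun _ => hg _)
    have hcol1 : ∀ e ∈ cls S c i, ¬ (e.map col₁).IsDiag →
        ¬ (e.map (fun v => if c v = i then (col₁ v : ℕ) else m + col₂ v)).IsDiag := by
      intro e he hd
      simp only [cls, mem_filter] at he
      induction e using Sym2.ind with
      | _ u v =>
        have h2 := he.2
        simp only [Sym2.map_mk, Sym2.eq_iff] at h2
        have hu : c u = i := by tauto
        have hv : c v = i := by tauto
        simp only [Sym2.map_mk, Sym2.mk_isDiag_iff] at hd ⊢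
        rw [if_pos hu, if_pos hv]
        intro h
        exact hd (Fin.ext h)
    have hcol2 : ∀ e ∈ clsU S c I, ¬ (e.map col₂).IsDiag →
        ¬ (e.map (fun v => if c v = i then (col₁ v : ℕ) else m + col₂ v)).IsDiag := by
      intro e he hd
      obtain ⟨_, j, hj, hej⟩ := mem_clsU.1 he
      have hji : j ≠ i := fun h => hi (h ▸ hj)
      induction e using Sym2.ind with
      | _ u v =>
        simp only [Sym2.map_mk, Sym2.eq_iff] at hej
        have hu : c u = j := by tauto
        have hv : c v = j := by tauto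
        simp only [Sym2.map_mk, Sym2.mk_isDiag_iff] at hd ⊢
        rw [if_neg (by rw [hu]; exact hji), if_neg (by rw [hv]; exact hji)]
        omega
    refine ⟨m + M, fun v => if c v = i then (col₁ v : ℕ) else m + col₂ v, A₁ ∪ A₂, B₁ ∪ B₂,
      ?_, ?_, ?_, ?_, ?_, ?_, ?_⟩
    · rw [hun]; exact union_subset_union hA₁ hA₂
    · rw [hun]; exact union_subset_union hB₁ hB₂
    · intro v hv
      simp only
      split_ifs with h
      · have := (col₁ v).2; omega
      · rcases mem_insert.1 hv with h' | h'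
        · exact absurd h' h
        · have := hlt v h'; omega
    · intro u v hu hv huv
      simp only
      split_ifs with h1 h2 h2
      · exact absurd (h1.trans h2.symm) huv
      · have := (col₁ u).2; omega
      · have := (col₁ v).2; omega
      · have hu' : c u ∈ I := by
          rcases mem_insert.1 hu with h' | h'
          · exact absurd h' h1
          · exact h'
        have hv' : c v ∈ I := by
          rcases mem_insert.1 hv with h' | h'
          · exact absurd h' h2
          · exact h'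
        have := hne u v hu' hv' huv
        omega
    · intro e he he'
      rw [mem_union] at he
      rw [mem_union, not_or] at he'
      rcases he with he | he
      · exact hcol1 e (hA₁ he) (hAB₁ e he he'.1)
      · exact hcol2 e (hA₂ he) (hAB₂ e he he'.2)
    · intro e he he'
      rw [mem_union] at he
      rw [mem_union, not_or] at he'
      rcases he with he | he
      · exact hcol1 e (hB₁ he) (hBA₁ e he he'.1)
      · exact hcol2 e (hB₂ he) (hBA₂ e he he'.2)
    · rw [hun, sum_powerset_union _ _ hdis, sum_powerset_union _ _ hdis,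
        card_union_of_disjoint hdis, card_insert_of_notMem hi]
      calc (3 : ℝ) ^ (m + M) * ((∑ A ∈ (cls S c i).powerset, ∑ B ∈ (clsU S c I).powerset, f (A ∪ B)) *
            ∑ A ∈ (cls S c i).powerset, ∑ B ∈ (clsU S c I).powerset, g (A ∪ B))
          = (3 : ℝ) ^ M * ((3 : ℝ) ^ m *
            ((∑ A ∈ (cls S c i).powerset, ∑ B ∈ (clsU S c I).powerset, f (A ∪ B)) *
            ∑ A ∈ (cls S c i).powerset, ∑ B ∈ (clsU S c I).powerset, g (A ∪ B))) := by
              rw [pow_add]; ring
        _ ≤ (3 : ℝ) ^ M * (24 * 4 ^ (cls S c i).card *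
            ((∑ A₂ ∈ (clsU S c I).powerset, f (A₁ ∪ A₂)) *
              (∑ B₂ ∈ (clsU S c I).powerset, g (B₁ ∪ B₂)))) := by gcongr
        _ = 24 * 4 ^ (cls S c i).card * ((3 : ℝ) ^ M *
            ((∑ A₂ ∈ (clsU S c I).powerset, f (A₁ ∪ A₂)) *
              (∑ B₂ ∈ (clsU S c I).powerset, g (B₁ ∪ B₂)))) := by ring
        _ ≤ 24 * 4 ^ (cls S c i).card * (24 ^ I.card * 4 ^ (clsU S c I).card *
            (f (A₁ ∪ A₂) * g (B₁ ∪ B₂))) := by gcongr
        _ = _ := by rw [pow_succ, pow_add]; ring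

lemma clsU_univ {s : ℕ} (S : Finset (Sym2 V)) (c : V → Fin s) :
    clsU S c univ = mono S c := by
  ext e
  rw [mem_clsU, mem_mono]
  apply and_congr_right
  intro _
  induction e using Sym2.ind with
  | _ u v =>
    simp only [mem_univ, true_and, Sym2.map_mk, Sym2.eq_iff, Sym2.mk_isDiag_iff]
    constructor
    · rintro ⟨i, hi⟩
      rcases hi with ⟨h1, h2⟩ | ⟨h1, h2⟩ <;> rw [h1, h2]
    · intro h
      exact ⟨c u, Or.inl ⟨rfl, h.symm⟩⟩

/-- Some colouring loses little when both families are projected to monochromatic edges. -/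
lemma pigeon [Nonempty V] {s : ℕ} (hs : 0 < s) (S : Finset (Sym2 V)) (hS : ∀ e ∈ S, ¬ e.IsDiag)
    (𝒜 ℬ : Finset (Finset (Sym2 V))) (hA : 𝒜.Nonempty) (hB : ℬ.Nonempty)
    (hAS : ∀ A ∈ 𝒜, A ⊆ S) (hBS : ∀ B ∈ ℬ, B ⊆ S) :
    ∃ c : V → Fin s, ((4 : ℝ) ^ (mono S c).card) ^ s * ((𝒜.card : ℝ) * ℬ.card) ≤
      4 ^ S.card * (((tr 𝒜 (mono S c)).card : ℝ) * (tr ℬ (mono S c)).card) ^ s := by
  classical
  by_contra hcon
  push Not at hcon
  haveI : NeZero s := ⟨hs.ne'⟩
  set k : ℕ := s ^ (Fintype.card V - 1) with hk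
  have hcardC : (univ : Finset (V → Fin s)).card = k * s := by
    rw [card_univ, Fintype.card_fun, Fintype.card_fin, hk, ← pow_succ,
      Nat.sub_add_cancel Fintype.card_pos]
  have hCne : (univ : Finset (V → Fin s)).Nonempty := univ_nonempty
  have hprod := Finset.prod_lt_prod_of_nonempty (s := (univ : Finset (V → Fin s)))
    (f := fun c => (4 : ℝ) ^ S.card * (((tr 𝒜 (mono S c)).card : ℝ) * (tr ℬ (mono S c)).card) ^ s)
    (g := fun c => ((4 : ℝ) ^ (mono S c).card) ^ s * ((𝒜.card : ℝ) * ℬ.card))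
    (fun c _ => by
      have h1 : (0 : ℝ) < (tr 𝒜 (mono S c)).card := by exact_mod_cast (tr_nonempty hA _).card_pos
      have h2 : (0 : ℝ) < (tr ℬ (mono S c)).card := by exact_mod_cast (tr_nonempty hB _).card_pos
      positivity) (fun c _ => hcon c) hCne
  rw [Finset.prod_mul_distrib, Finset.prod_mul_distrib, Finset.prod_const, Finset.prod_const,
    Finset.prod_pow, Finset.prod_pow, Finset.prod_mul_distrib, Finset.prod_pow_eq_pow_sum,
    sum_card_mono hs S hS, hcardC] at hprod
  have hSA := shearer (univ : Finset (V → Fin s)) (fun c => mono S c) k S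
      (fun e he => (card_filter_mono hs e (hS e he) S he).ge) 𝒜 hA hAS
  have hSB := shearer (univ : Finset (V → Fin s)) (fun c => mono S c) k S
      (fun e he => (card_filter_mono hs e (hS e he) S he).ge) ℬ hB hBS
  have h1 : ((𝒜.card : ℝ) ^ k * (ℬ.card : ℝ) ^ k) ^ s ≤
      ((∏ c : V → Fin s, ((tr 𝒜 (mono S c)).card : ℝ)) *
        (∏ c : V → Fin s, ((tr ℬ (mono S c)).card : ℝ))) ^ s :=
    pow_le_pow_left₀ (by positivity)
      (mul_le_mul hSA hSB (by positivity) (Finset.prod_nonneg (fun _ _ => Nat.cast_nonneg _))) s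
  have h2 : ((4 : ℝ) ^ S.card) ^ (k * s) * ((𝒜.card : ℝ) ^ k * (ℬ.card : ℝ) ^ k) ^ s <
      ((4 : ℝ) ^ (s ^ (Fintype.card V - 1) * S.card)) ^ s * ((𝒜.card : ℝ) * ℬ.card) ^ (k * s) :=
    lt_of_le_of_lt (mul_le_mul_of_nonneg_left h1 (by positivity)) hprod
  rw [← hk, ← mul_pow, ← pow_mul, ← pow_mul, ← pow_mul] at h2
  have h3 : S.card * (k * s) = k * S.card * s := by ring
  rw [h3] at h2
  exact lt_irrefl _ h2

end Pool.Agent.Helper34.E243
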