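import Mathlib
import Pool.Agent.Helper34.E243.Tensor

set_option autoImplicit false

namespace Pool.Agent.Helper34.E243

open Finset

/-- The basic inequality with a free number `s` of parts. -/
theorem main_s (n t s : ℕ) (F : Finset (SimpleGraph (Fin n)))
    (hF : ∀ G ∈ F, ∀ H ∈ F, ((t : ℕ∞) ≤ (G ⊓ H).chromaticNumber)) :
    (3 : ℝ) ^ (t * s) * (F.card : ℝ) ^ 2 ≤ 24 ^ (s * s) * 4 ^ (n.choose 2) := by
  classical
  rcases F.eq_empty_or_nonempty with hemp | hFne
  · rw [hemp, card_empty, Nat.cast_zero, zero_pow (by norm_num), mul_zero]; positivity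
  -- the number of all graphs
  set S : Finset (Sym2 (Fin n)) := (⊤ : SimpleGraph (Fin n)).edgeFinset with hSdef
  have hScard : S.card = n.choose 2 := by
    rw [hSdef, SimpleGraph.card_edgeFinset_top_eq_card_choose_two, Fintype.card_fin]
  have hS : ∀ e ∈ S, ¬ e.IsDiag := by
    intro e he
    rw [hSdef, SimpleGraph.mem_edgeFinset] at he
    exact SimpleGraph.not_isDiag_of_mem_edgeSet _ he
  have hES : ∀ G : SimpleGraph (Fin n), G.edgeFinset ⊆ S := by
    intro G
    rw [hSdef]
    exact SimpleGraph.edgeFinset_mono le_top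
  set 𝒜 : Finset (Finset (Sym2 (Fin n))) := F.image (fun G => G.edgeFinset) with hA
  set ℬ : Finset (Finset (Sym2 (Fin n))) := F.image (fun G => (Gᶜ).edgeFinset) with hB
  have hAc : 𝒜.card = F.card := by
    rw [hA]
    apply card_image_of_injective
    intro G H h
    exact SimpleGraph.edgeFinset_inj.1 h
  have hBc : ℬ.card = F.card := by
    rw [hB]
    apply card_image_of_injective
    intro G H h
    have h2 := SimpleGraph.edgeFinset_inj.1 h
    exact compl_injective h2
  have hAne : 𝒜.Nonempty := hFne.image _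
  have hBne : ℬ.Nonempty := hFne.image _
  have hAS : ∀ A ∈ 𝒜, A ⊆ S := by
    intro A hA'
    obtain ⟨G, _, rfl⟩ := mem_image.1 hA'
    exact hES G
  have hBS : ∀ B ∈ ℬ, B ⊆ S := by
    intro B hB'
    obtain ⟨G, _, rfl⟩ := mem_image.1 hB'
    intro e he
    rw [SimpleGraph.mem_edgeFinset] at he
    rw [hSdef, SimpleGraph.mem_edgeFinset]
    exact SimpleGraph.edgeSet_mono le_top he
  have hFle : (F.card : ℝ) ≤ 2 ^ S.card := by
    rw [← hAc]
    have : 𝒜 ⊆ S.powerset := fun A hA' => mem_powerset.2 (hAS A hA')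
    have h2 := card_le_card this
    rw [card_powerset] at h2
    exact_mod_cast h2
  have hsq : (F.card : ℝ) ^ 2 ≤ 4 ^ (n.choose 2) := by
    rw [← hScard]
    refine (pow_le_pow_left₀ (Nat.cast_nonneg _) hFle 2).trans (le_of_eq ?_)
    rw [← pow_mul, mul_comm, pow_mul]; norm_num
  rcases Nat.eq_zero_or_pos s with hs0 | hs
  · rw [hs0, mul_zero, mul_zero, pow_zero, pow_zero, one_mul, one_mul]
    exact hsq
  rcases Nat.eq_zero_or_pos n with hn0 | hn
  · -- no vertices: the chromatic number is zero, so t = 0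
    obtain ⟨G, hG⟩ := hFne
    have h1 := hF G hG G hG
    have ht : t = 0 := by
      have hcol0 : (G ⊓ G).Colorable 0 := by
        refine ⟨SimpleGraph.Coloring.mk (fun v => absurd v.2 (by omega)) ?_⟩
        intro v; exact absurd v.2 (by omega)
      have h3 := h1.trans hcol0.chromaticNumber_le
      have : t ≤ 0 := by exact_mod_cast h3
      omega
    rw [ht, zero_mul, pow_zero, one_mul]
    refine hsq.trans ?_
    exact le_mul_of_one_le_left (by positivity) (one_le_pow₀ (by norm_num))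
  have : Nonempty (Fin n) := ⟨⟨0, hn⟩⟩
  obtain ⟨c, hc⟩ := pigeon hs S hS 𝒜 ℬ hAne hBne hAS hBS
  obtain ⟨M, col, A, B, hAsub, hBsub, hlt, hne, hAB, hBA, hineq⟩ := tensor S hS c univ
    (fun X => if X ∈ tr 𝒜 (mono S c) then (1 : ℝ) else 0)
    (fun X => if X ∈ tr ℬ (mono S c) then (1 : ℝ) else 0)
    (fun X => by split_ifs <;> norm_num) (fun X => by split_ifs <;> norm_num)
  rw [clsU_univ] at hAsub hBsub hineq
  have hsumA : ∑ X ∈ (mono S c).powerset, (if X ∈ tr 𝒜 (mono S c) then (1 : ℝ) else 0) =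
      (tr 𝒜 (mono S c)).card := by
    rw [← Finset.sum_filter, sum_const, nsmul_eq_mul, mul_one]
    congr 2
    ext X
    rw [mem_filter]
    exact ⟨fun h => h.2, fun h => ⟨tr_subset_powerset _ _ h, h⟩⟩
  have hsumB : ∑ X ∈ (mono S c).powerset, (if X ∈ tr ℬ (mono S c) then (1 : ℝ) else 0) =
      (tr ℬ (mono S c)).card := by
    rw [← Finset.sum_filter, sum_const, nsmul_eq_mul, mul_one]
    congr 2
    ext X
    rw [mem_filter]
    exact ⟨fun h => h.2, fun h => ⟨tr_subset_powerset _ _ h, h⟩⟩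
  rw [hsumA, hsumB, card_univ, Fintype.card_fin] at hineq
  have hApos : (0 : ℝ) < (tr 𝒜 (mono S c)).card := by exact_mod_cast (tr_nonempty hAne _).card_pos
  have hBpos : (0 : ℝ) < (tr ℬ (mono S c)).card := by exact_mod_cast (tr_nonempty hBne _).card_pos
  have hLpos : 0 < (3 : ℝ) ^ M * (((tr 𝒜 (mono S c)).card : ℝ) * (tr ℬ (mono S c)).card) := by
    positivity
  have hAmem : A ∈ tr 𝒜 (mono S c) := by
    by_contra h
    rw [if_neg h] at hineq
    simp at hineq
    linarith
  have hBmem : B ∈ tr ℬ (mono S c) := by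
    by_contra h
    rw [if_neg h] at hineq
    simp at hineq
    linarith
  rw [if_pos hAmem, if_pos hBmem, mul_one, mul_one] at hineq
  obtain ⟨A', hA', rfl⟩ := mem_tr.1 hAmem
  obtain ⟨B', hB', rfl⟩ := mem_tr.1 hBmem
  obtain ⟨G, hG, rfl⟩ := mem_image.1 hA'
  obtain ⟨H, hH, rfl⟩ := mem_image.1 hB'
  have htM : t ≤ M := by
    have hcolb : (G ⊓ H).Colorable M := by
      refine ⟨SimpleGraph.Coloring.mk (fun v => (⟨col v, hlt v (mem_univ _)⟩ : Fin M)) ?_⟩
      intro u v huv heq
      have heq' : col u = col v := by simpa using heq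
      rw [SimpleGraph.inf_adj] at huv
      by_cases hcuv : c u = c v
      · have he1 : s(u, v) ∈ G.edgeFinset ∩ mono S c := by
          rw [mem_inter, mem_mono, SimpleGraph.mem_edgeFinset, SimpleGraph.mem_edgeSet]
          refine ⟨huv.1, ?_, ?_⟩
          · apply hES G
            rw [SimpleGraph.mem_edgeFinset, SimpleGraph.mem_edgeSet]
            exact huv.1
          · simpa using hcuv
        have he2 : s(u, v) ∉ (Hᶜ).edgeFinset ∩ mono S c := by
          rw [mem_inter, SimpleGraph.mem_edgeFinset, SimpleGraph.mem_edgeSet,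
            SimpleGraph.compl_adj]
          rintro ⟨⟨_, h2⟩, _⟩
          exact h2 huv.2
        have := hAB _ he1 he2
        apply this
        simpa using heq'
      · exact hne u v (mem_univ _) (mem_univ _) hcuv heq'
    have h1 := (hF G hG H hH).trans hcolb.chromaticNumber_le
    exact_mod_cast h1
  -- combine
  set a : ℝ := ((tr 𝒜 (mono S c)).card : ℝ) * (tr ℬ (mono S c)).card with ha
  have ha0 : 0 < a := by positivity
  have h1 : (3 : ℝ) ^ t * a ≤ 24 ^ s * 4 ^ (mono S c).card := by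
    refine le_trans ?_ hineq
    gcongr
    norm_num
  have h2' : ((3 : ℝ) ^ t * a) ^ s ≤ (24 ^ s * 4 ^ (mono S c).card) ^ s :=
    pow_le_pow_left₀ (by positivity) h1 s
  have h2 : (3 : ℝ) ^ (t * s) * a ^ s ≤ 24 ^ (s * s) * (4 ^ (mono S c).card) ^ s := by
    rw [pow_mul, pow_mul, ← mul_pow, ← mul_pow]
    exact h2'
  have hq : (0 : ℝ) < (4 ^ (mono S c).card) ^ s := by positivity
  have h3 : (3 : ℝ) ^ (t * s) * ((4 ^ (mono S c).card) ^ s * ((𝒜.card : ℝ) * ℬ.card)) ≤
      4 ^ S.card * (24 ^ (s * s) * (4 ^ (mono S c).card) ^ s) := by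
    calc (3 : ℝ) ^ (t * s) * ((4 ^ (mono S c).card) ^ s * ((𝒜.card : ℝ) * ℬ.card))
        ≤ (3 : ℝ) ^ (t * s) * (4 ^ S.card * a ^ s) :=
          mul_le_mul_of_nonneg_left hc (by positivity)
      _ = 4 ^ S.card * ((3 : ℝ) ^ (t * s) * a ^ s) := by ring
      _ ≤ _ := mul_le_mul_of_nonneg_left h2 (by positivity)
  rw [hAc, hBc, hScard] at h3
  have h4 : ((3 : ℝ) ^ (t * s) * (F.card : ℝ) ^ 2) * (4 ^ (mono S c).card) ^ s ≤
      (24 ^ (s * s) * 4 ^ (n.choose 2)) * (4 ^ (mono S c).card) ^ s := by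
    calc _ = (3 : ℝ) ^ (t * s) * ((4 ^ (mono S c).card) ^ s * ((F.card : ℝ) * F.card)) := by ring
      _ ≤ _ := h3
      _ = _ := by ring
  exact le_of_mul_le_mul_right h4 hq

end Pool.Agent.Helper34.E243
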